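import Mathlib
import Pool.Agent.Q285.SumC

set_option autoImplicit false

/-! A sum closed class whose indecomposables have upper growth rate between `1` and `φ`. -/

namespace Pool.Agent.Results.MP_9e0f03_co.BelowPhi

open Pool.Agent.Q285.SumC

/-- There is a sum closed permutation class whose indecomposable members have upper growth rate
strictly between `1` and the golden ratio. -/
theorem result : ∃ C : Set PP, IsClass C ∧ SumClosed C ∧ 1 < upGr (ind C) ∧
    upGr (ind C) < ENNReal.ofReal ((1 + Real.sqrt 5) / 2) := by
  refine ⟨Cst, class_Cst, sum_Cst, ind_growth.1, lt_of_le_of_lt ind_growth.2 ?_⟩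
  have h3 : (2 : ℝ) < Real.sqrt 5 := by
    apply Real.lt_sqrt_of_sq_lt
    norm_num
  exact (ENNReal.ofReal_lt_ofReal_iff (by linarith)).2 (by linarith)

end Pool.Agent.Results.MP_9e0f03_co.BelowPhi
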